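import Pool.Agent.H43.G.R_seed8.H807R2.DavIface

/-!
Major arcs for the exponential sum with the Moebius function, from `SWMu`.
-/

set_option autoImplicit false

open Filter Topology Complex
open scoped Real

namespace Pool.Agent.H705R2.MSW

open ArithmeticFunction

/-- summation by parts, crude form -/
lemma parts {u v : ℕ → ℂ} {K δ : ℝ} {N : ℕ} (hK : 0 ≤ K)
    (hu : ∀ m ≤ N, ‖∑ n ∈ Finset.range m, u n‖ ≤ K) (hv : ∀ n, ‖v n‖ ≤ 1)
    (hv' : ∀ n, ‖v (n + 1) - v n‖ ≤ δ) :
    ‖∑ n ∈ Finset.range N, u n * v n‖ ≤ K * (1 + N * δ) := by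
  have key : ∀ M : ℕ, ∑ n ∈ Finset.range M, u n * v n =
      (∑ n ∈ Finset.range M, u n) * v M -
        ∑ m ∈ Finset.range M, (∑ n ∈ Finset.range (m + 1), u n) * (v (m + 1) - v m) := by
    intro M
    induction M with
    | zero => simp
    | succ M ih =>
      rw [Finset.sum_range_succ, ih, Finset.sum_range_succ _ M, Finset.sum_range_succ _ M]
      rw [Finset.sum_range_succ u M]
      ring
  rw [key N]
  refine (norm_sub_le _ _).trans ?_
  have h1 : ‖(∑ n ∈ Finset.range N, u n) * v N‖ ≤ K := by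
    rw [norm_mul]
    calc _ ≤ K * 1 := mul_le_mul (hu N le_rfl) (hv N) (norm_nonneg _) hK
      _ = K := mul_one K
  have h2 : ‖∑ m ∈ Finset.range N, (∑ n ∈ Finset.range (m + 1), u n) * (v (m + 1) - v m)‖ ≤
      N * (K * δ) := by
    calc _ ≤ ∑ m ∈ Finset.range N, K * δ := by
          refine norm_sum_le_of_le _ (fun m hm => ?_)
          rw [norm_mul]
          exact mul_le_mul (hu (m + 1) (Finset.mem_range.mp hm)) (hv' m) (norm_nonneg _) hK
      _ = N * (K * δ) := by rw [Finset.sum_const, Finset.card_range, nsmul_eq_mul]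
  linarith

lemma e_norm (x : ℝ) : ‖cexp (2 * π * I * x)‖ = 1 := by
  have : (2 * π * I * x : ℂ) = ((2 * π * x : ℝ) : ℂ) * I := by push_cast; ring
  rw [this, Complex.norm_exp_ofReal_mul_I]

lemma mu_norm (n : ℕ) : ‖((moebius n : ℤ) : ℂ)‖ ≤ 1 := by
  rw [Complex.norm_intCast]
  exact_mod_cast abs_moebius_le_one

/-- the twisted sum over residue classes -/
lemma twist_le {q : ℕ} (hq : 1 ≤ q) (a : ℤ) {M : ℕ} {Y : ℝ}
    (h : ∀ b : ℕ, |∑ n ∈ (Finset.range M).filter (fun n => n % q = b),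
      ((moebius n : ℤ) : ℝ)| ≤ Y) :
    ‖∑ n ∈ Finset.range M, ((moebius n : ℤ) : ℂ) * cexp (2 * π * I * ((n * (a / q) : ℝ) : ℂ))‖ ≤
      q * Y := by
  have hq0 : (q : ℂ) ≠ 0 := by exact_mod_cast (by omega : q ≠ 0)
  have hmap : ∀ n ∈ Finset.range M, n % q ∈ Finset.range q := fun n _ =>
    Finset.mem_range.mpr (Nat.mod_lt n hq)
  rw [← Finset.sum_fiberwise_of_maps_to hmap]
  have h1 : ∀ b ∈ Finset.range q, ‖∑ n ∈ (Finset.range M).filter (fun n => n % q = b),
      ((moebius n : ℤ) : ℂ) * cexp (2 * π * I * ((n * (a / q) : ℝ) : ℂ))‖ ≤ Y := by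
    intro b _
    have h2 : ∑ n ∈ (Finset.range M).filter (fun n => n % q = b),
        ((moebius n : ℤ) : ℂ) * cexp (2 * π * I * ((n * (a / q) : ℝ) : ℂ)) =
        (((∑ n ∈ (Finset.range M).filter (fun n => n % q = b), ((moebius n : ℤ) : ℝ)) : ℝ) : ℂ) *
          cexp (2 * π * I * ((b * (a / q) : ℝ) : ℂ)) := by
      push_cast
      rw [Finset.sum_mul]
      apply Finset.sum_congr rfl
      intro n hn
      have hnb := (Finset.mem_filter.mp hn).2
      congr 1
      obtain ⟨k, h3⟩ : ∃ k : ℕ, n = q * k + b := by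
        refine ⟨n / q, ?_⟩
        rw [← hnb]; exact (Nat.div_add_mod n q).symm
      have h4 : (n : ℂ) = q * (k : ℂ) + b := by
        exact_mod_cast h3
      rw [h4]
      have h5 : 2 * π * I * ((q * (k : ℂ) + b) * (a / q)) =
          2 * π * I * (b * (a / q)) + (((k : ℤ) * a : ℤ) : ℂ) * (2 * π * I) := by
        push_cast
        field_simp
        ring
      rw [h5, Complex.exp_add, Complex.exp_int_mul_two_pi_mul_I, mul_one]
    rw [h2, norm_mul, e_norm, mul_one, Complex.norm_real]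
    exact h b
  calc _ ≤ ∑ b ∈ Finset.range q, Y := norm_sum_le_of_le _ h1
    _ = q * Y := by rw [Finset.sum_const, Finset.card_range, nsmul_eq_mul]

lemma growth_major (A B : ℕ) : ∀ᶠ N : ℕ in atTop,
    (Real.log N) ^ B ≤ √(N : ℝ) ∧ (2 : ℝ) ^ A ≤ Real.log N ∧ 16 ≤ N := by
  have hs : Tendsto (fun N : ℕ => √(N : ℝ)) atTop atTop :=
    Real.tendsto_sqrt_atTop.comp tendsto_natCast_atTop_atTop
  have hl : Tendsto (fun N : ℕ => Real.log (N : ℝ)) atTop atTop :=
    Real.tendsto_log_atTop.comp tendsto_natCast_atTop_atTop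
  have h1 : (fun x : ℝ => Real.log x ^ B) =o[atTop] (id : ℝ → ℝ) :=
    Real.isLittleO_pow_log_id_atTop
  have h2 := hs.eventually (h1.bound (c := 1 / 2 ^ B) (by positivity))
  filter_upwards [h2, hl.eventually_ge_atTop ((2 : ℝ) ^ A), eventually_ge_atTop 16]
    with N g2 g3 g5
  refine ⟨?_, g3, g5⟩
  have hN : (16 : ℝ) ≤ N := by exact_mod_cast g5
  have hN0 : (0 : ℝ) < N := by linarith
  have hs1 : 1 ≤ √(N : ℝ) := Real.one_le_sqrt.mpr (by linarith)
  have hls : 0 ≤ Real.log (√(N : ℝ)) := Real.log_nonneg hs1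
  rw [Real.norm_of_nonneg (by positivity), id, Real.norm_of_nonneg (by linarith)] at g2
  have h3 : Real.log N = 2 * Real.log (√(N : ℝ)) := by
    rw [Real.log_sqrt hN0.le]; ring
  rw [h3, mul_pow]
  calc 2 ^ B * Real.log √(N : ℝ) ^ B ≤ 2 ^ B * (1 / 2 ^ B * √(N : ℝ)) :=
        mul_le_mul_of_nonneg_left g2 (by positivity)
    _ = √(N : ℝ) := by field_simp

/-- **Major arcs.** -/
theorem major_of (h : Pool.Agent.H807R2.SWMu) (A B : ℕ) : ∃ N₁ : ℕ, ∀ N : ℕ, N₁ ≤ N →
    ∀ q : ℕ, 1 ≤ q → (q : ℝ) ≤ (Real.log N) ^ B → ∀ (a : ℤ) (α : ℝ),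
      |α - a / q| ≤ (Real.log N) ^ B / N →
      ‖∑ n ∈ Finset.range N, ((moebius n : ℤ) : ℂ) * cexp (2 * π * I * n * α)‖ ≤
        N / (Real.log N) ^ A := by
  set A' := A + 2 * B + 1 with hA'
  obtain ⟨N₀, hN₀⟩ := h A' (B + 1)
  obtain ⟨N₁, hN₁⟩ := (growth_major (A' + 3) (A' + 3)).exists_forall_of_atTop
  refine ⟨max (N₀ ^ 2 + 1) N₁, fun N hN q hq hqB a α hα => ?_⟩
  obtain ⟨g1, g2, g3⟩ := hN₁ N ((le_max_right _ _).trans hN)
  have hNN₀ : N₀ ^ 2 + 1 ≤ N := (le_max_left _ _).trans hN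
  have hNr : (16 : ℝ) ≤ N := by exact_mod_cast g3
  have hN0 : (0 : ℝ) < N := by linarith
  set L := Real.log N with hL
  have h2A : (1 : ℝ) ≤ 2 ^ (A' + 3) := one_le_pow₀ (by norm_num)
  have hL1 : 1 ≤ L := h2A.trans g2
  have hL0 : 0 < L := by linarith
  have hqr : (1 : ℝ) ≤ q := by exact_mod_cast hq
  have hsq : √(N : ℝ) * √(N : ℝ) = N := Real.mul_self_sqrt hN0.le
  have hs0 : 0 < √(N : ℝ) := by positivity
  set K : ℝ := 2 ^ A' * N / L ^ (A + B + 1) with hK
  have hK0 : 0 < K := by positivity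
  -- partial sums
  have hT : ∀ m ≤ N, ‖∑ n ∈ Finset.range m, ((moebius n : ℤ) : ℂ) *
      cexp (2 * π * I * ((n * (a / q) : ℝ) : ℂ))‖ ≤ K := by
    intro m hm
    rcases le_or_gt (√(N : ℝ)) m with hms | hms
    · have hmN₀ : N₀ ≤ m := by
        have h1 : (N₀ : ℝ) ≤ √(N : ℝ) := by
          apply Real.le_sqrt_of_sq_le
          have : ((N₀ ^ 2 : ℕ) : ℝ) ≤ N := by exact_mod_cast (by omega : N₀ ^ 2 ≤ N)
          exact_mod_cast this
        exact_mod_cast h1.trans hms
      have hm0 : (0 : ℝ) < m := lt_of_lt_of_le hs0 hms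
      have hlogm : L / 2 ≤ Real.log m := by
        rw [hL, ← Real.log_sqrt hN0.le]
        exact Real.log_le_log hs0 hms
      have hqm : (q : ℝ) ≤ (Real.log m) ^ (B + 1) := by
        refine hqB.trans ?_
        calc L ^ B = L ^ B * 1 := (mul_one _).symm
          _ ≤ L ^ B * (L / 2 ^ (B + 1)) := by
              apply mul_le_mul_of_nonneg_left _ (by positivity)
              rw [le_div_iff₀ (by positivity), one_mul]
              refine le_trans ?_ g2
              exact pow_le_pow_right₀ (by norm_num) (by omega)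
          _ = (L / 2) ^ (B + 1) := by rw [div_pow]; ring
          _ ≤ (Real.log m) ^ (B + 1) := pow_le_pow_left₀ (by positivity) hlogm _
      have h1 := twist_le hq a (M := m) (Y := m / (Real.log m) ^ A')
        (fun b => hN₀ m hmN₀ q b hq hqm)
      refine h1.trans ?_
      have hmr : (m : ℝ) ≤ N := by exact_mod_cast hm
      calc (q : ℝ) * (m / (Real.log m) ^ A') ≤ L ^ B * (N / (L / 2) ^ A') := by
            apply mul_le_mul hqB _ (by positivity) (by positivity)
            apply div_le_div₀ hN0.le hmr (by positivity)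
            exact pow_le_pow_left₀ (by positivity) hlogm _
        _ = K := by
            rw [hK, div_pow, hA', show A + 2 * B + 1 = B + (A + B + 1) by ring, pow_add L]
            field_simp
    · have h1 : ‖∑ n ∈ Finset.range m, ((moebius n : ℤ) : ℂ) *
          cexp (2 * π * I * ((n * (a / q) : ℝ) : ℂ))‖ ≤ m := by
        calc _ ≤ ∑ n ∈ Finset.range m, (1 : ℝ) := by
              refine norm_sum_le_of_le _ (fun n _ => ?_)
              rw [norm_mul, e_norm, mul_one]
              exact mu_norm n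
          _ = m := by simp
      refine h1.trans (hms.le.trans ?_)
      have hpow : L ^ (A + B + 1) ≤ √(N : ℝ) :=
        le_trans (pow_le_pow_right₀ hL1 (by omega)) g1
      rw [hK, le_div_iff₀ (by positivity)]
      calc √(N : ℝ) * L ^ (A + B + 1) ≤ √(N : ℝ) * √(N : ℝ) :=
            mul_le_mul_of_nonneg_left hpow hs0.le
        _ = 1 * N := by rw [hsq, one_mul]
        _ ≤ 2 ^ A' * N := by
            apply mul_le_mul_of_nonneg_right _ hN0.le
            exact one_le_pow₀ (by norm_num)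
  -- summation by parts
  set β : ℝ := α - a / q with hβ
  have hsplit : ∑ n ∈ Finset.range N, ((moebius n : ℤ) : ℂ) * cexp (2 * π * I * n * α) =
      ∑ n ∈ Finset.range N, (((moebius n : ℤ) : ℂ) *
        cexp (2 * π * I * ((n * (a / q) : ℝ) : ℂ))) * cexp (2 * π * I * ((n * β : ℝ) : ℂ)) := by
    apply Finset.sum_congr rfl
    intro n _
    have e0 : cexp (2 * π * I * n * α) = cexp (2 * π * I * ((n * (a / q) : ℝ) : ℂ)) *
        cexp (2 * π * I * ((n * β : ℝ) : ℂ)) := by
      rw [← Complex.exp_add]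
      congr 1
      rw [hβ]
      push_cast
      ring
    rw [e0]
    ring
  rw [hsplit]
  have hstep : ∀ n : ℕ, ‖cexp (2 * π * I * (((n + 1 : ℕ) * β : ℝ) : ℂ)) -
      cexp (2 * π * I * ((n * β : ℝ) : ℂ))‖ ≤ 7 * |β| := by
    intro n
    have e1 : cexp (2 * π * I * (((n + 1 : ℕ) * β : ℝ) : ℂ)) -
      cexp (2 * π * I * ((n * β : ℝ) : ℂ)) =
      cexp (2 * π * I * ((n * β : ℝ) : ℂ)) * (cexp (I * ((2 * π * β : ℝ) : ℂ)) - 1) := by
      have e2 : cexp (2 * π * I * (((n + 1 : ℕ) * β : ℝ) : ℂ)) =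
          cexp (2 * π * I * ((n * β : ℝ) : ℂ)) * cexp (I * ((2 * π * β : ℝ) : ℂ)) := by
        rw [← Complex.exp_add]
        congr 1
        push_cast
        ring
      rw [e2]
      ring
    rw [e1, norm_mul, e_norm, one_mul]
    refine (Real.norm_exp_I_mul_ofReal_sub_one_le (x := 2 * π * β)).trans ?_
    rw [Real.norm_eq_abs, abs_mul, abs_of_pos (by positivity : 0 < 2 * π)]
    apply mul_le_mul_of_nonneg_right _ (abs_nonneg β)
    have := Real.pi_lt_d2
    linarith
  have hp := parts (N := N) (K := K) (δ := 7 * |β|) hK0.le hT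
    (v := fun n => cexp (2 * π * I * ((n * β : ℝ) : ℂ))) (fun n => (e_norm _).le) hstep
  refine hp.trans ?_
  have hNβ : (N : ℝ) * (7 * |β|) ≤ 7 * L ^ B := by
    have : (N : ℝ) * |β| ≤ L ^ B := by
      rw [le_div_iff₀ hN0] at hα
      linarith
    linarith
  have hLB : 1 ≤ L ^ B := one_le_pow₀ hL1
  calc K * (1 + N * (7 * |β|)) ≤ K * (8 * L ^ B) := by
        apply mul_le_mul_of_nonneg_left _ hK0.le
        linarith
    _ = (N / L ^ A) * (2 ^ (A' + 3) / L) := by
        rw [hK, pow_add 2 A' 3, pow_succ L (A + B), pow_add L A B]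
        field_simp
        norm_num
    _ ≤ (N / L ^ A) * 1 := by
        apply mul_le_mul_of_nonneg_left _ (by positivity)
        rw [div_le_one hL0]
        exact g2
    _ = N / L ^ A := mul_one _

end Pool.Agent.H705R2.MSW
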