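import Pool.Agent.H43.G.R_seed8.H705R2.MLogC

/-!
The log weighted Moebius sum for the principal character.
-/

set_option autoImplicit false

open MeasureTheory Complex Filter Topology Set
open scoped Real

namespace Pool.Agent.H705R2.MSW

open Pool.Agent.H379R2.SW

/-- lower bound and size on a ball -/
lemma Z1_ball {ε : ℝ} (hε : 0 < ε) (hε1 : ε ≤ 1) : ∃ K : ℝ, 1 ≤ K ∧ ∀ c ξ : ℝ, 1 < c → c ≤ 3 / 2 →
    (0 < K⁻¹ * (|2 * π * ξ| + 2) ^ (-(5 * ε)) ∧ K⁻¹ * (|2 * π * ξ| + 2) ^ (-(5 * ε)) ≤ 1 / 2) ∧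
    ∀ z ∈ Metric.closedBall (vert c ξ) (K⁻¹ * (|2 * π * ξ| + 2) ^ (-(5 * ε))),
      Z1 z ≠ 0 ∧ ‖(z - 1) / Z1 z‖ ≤ K * (|2 * π * ξ| + 2) ^ (4 * ε) := by
  obtain ⟨C, hC, hup⟩ := Z1_up hε hε1
  obtain ⟨c₀, hc₀, hc₀1, hlow⟩ := Z1_low hε hε1
  have hC0 : 0 < C := by linarith
  have hCc : 1 ≤ C / c₀ := by rw [le_div_iff₀ hc₀]; linarith
  refine ⟨384 * C / (c₀ * ε), ?_, ?_⟩
  · rw [le_div_iff₀ (by positivity)]
    nlinarith
  intro c ξ hc1 hc2
  set t : ℝ := 2 * π * ξ with ht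
  set T : ℝ := |t| + 2 with hT
  have ht0 : 0 ≤ |t| := abs_nonneg t
  have hT2 : 2 ≤ T := by rw [hT]; linarith
  have hT0 : 0 < T := by linarith
  have hTε : 1 ≤ T ^ ε := Real.one_le_rpow (by linarith) hε.le
  set s : ℂ := vert c ξ with hs
  have hvert : s = 1 + ((c - 1 : ℝ) : ℂ) + I * (t : ℂ) := by
    simp only [hs, vert, ht]
    push_cast
    ring
  have hsre : s.re = c := by rw [hs, vert_re]
  have hsim : s.im = t := by rw [hs, vert_im]
  set R : ℝ := ‖s‖ + 1 with hR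
  have hR1 : 1 ≤ R := by rw [hR]; linarith [norm_nonneg s]
  have hlow1 : c₀ * T ^ (-(4 * ε)) * R ≤ ‖Z1 s‖ := by
    have := hlow (c - 1) t (by linarith) (by linarith)
    rw [← hvert] at this
    exact this
  have hTn : 0 < T ^ (-(4 * ε)) := Real.rpow_pos_of_pos hT0 _
  have hTn5 : 0 < T ^ (-(5 * ε)) := Real.rpow_pos_of_pos hT0 _
  have hTn5' : T ^ (-(5 * ε)) ≤ 1 := Real.rpow_le_one_of_one_le_of_nonpos (by linarith) (by linarith)
  have hK : (384 * C / (c₀ * ε))⁻¹ = c₀ * ε / (384 * C) := by rw [inv_div]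
  rw [hK]
  set ρ : ℝ := c₀ * ε / (384 * C) * T ^ (-(5 * ε)) with hρ
  have hcC : c₀ * ε / (384 * C) ≤ ε / 384 := by
    rw [div_le_div_iff₀ (by positivity) (by norm_num)]
    nlinarith [mul_le_mul_of_nonneg_left (hc₀1.trans hC) hε.le]
  have hρ0 : 0 < ρ := by positivity
  have hρε : ρ ≤ ε / 384 := by
    calc ρ ≤ ε / 384 * 1 := mul_le_mul hcC hTn5' hTn5.le (by positivity)
      _ = _ := mul_one _
  refine ⟨⟨hρ0, by linarith⟩, ?_⟩
  have h2ε : (2 : ℝ) ^ ε ≤ 2 := by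
    calc (2 : ℝ) ^ ε ≤ 2 ^ (1 : ℝ) := Real.rpow_le_rpow_of_exponent_le (by norm_num) hε1
      _ = 2 := by norm_num
  have hup2 : ∀ u : ℂ, ‖u - s‖ ≤ ε / 4 → ‖Z1 u‖ ≤ 6 * C * T ^ ε * R := by
    intro u hu
    have h1 : |(u - s).im| ≤ ε / 4 := (abs_im_le_norm _).trans hu
    have h2 : |(u - s).re| ≤ ε / 4 := (abs_re_le_norm _).trans hu
    rw [sub_im, hsim] at h1
    rw [sub_re, hsre] at h2
    have h3 := abs_le.mp h2
    have h5 : |u.im| ≤ |t| + |u.im - t| := by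
      have := abs_sub_abs_le_abs_sub u.im t
      linarith
    have h6 := hup u (by linarith) (by linarith)
    have h7 : (|u.im| + 2) ^ ε ≤ 2 * T ^ ε := by
      calc (|u.im| + 2) ^ ε ≤ (2 * T) ^ ε := by
            apply Real.rpow_le_rpow (by positivity) _ hε.le
            rw [hT]; linarith
        _ = 2 ^ ε * T ^ ε := Real.mul_rpow (by norm_num) hT0.le
        _ ≤ 2 * T ^ ε := mul_le_mul_of_nonneg_right h2ε (by positivity)
    have h8 : ‖u - 1‖ + 1 ≤ 3 * R := by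
      have e : u - 1 = (u - s) + (s - 1) := by ring
      have h9 : ‖u - 1‖ ≤ ‖u - s‖ + ‖s - 1‖ := by rw [e]; exact norm_add_le _ _
      have h10 : ‖s - 1‖ ≤ ‖s‖ + 1 := by
        refine (norm_sub_le _ _).trans ?_
        rw [norm_one]
      rw [hR]
      rw [hR] at hR1
      linarith
    refine h6.trans ?_
    calc C * (|u.im| + 2) ^ ε * (‖u - 1‖ + 1) ≤ C * (2 * T ^ ε) * (3 * R) := by
          apply mul_le_mul _ h8 (by positivity) (by positivity)
          exact mul_le_mul_of_nonneg_left h7 hC0.le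
      _ = _ := by ring
  have hder : ∀ w ∈ Metric.closedBall s ρ, ‖deriv Z1 w‖ ≤ 48 * C / ε * T ^ ε * R := by
    intro w hw
    rw [mem_closedBall_iff_norm] at hw
    have h := norm_deriv_le_of_forall_mem_sphere_norm_le (c := w) (R := ε / 8)
      (C := 6 * C * T ^ ε * R) (by positivity) (f := Z1) Z1_diff.diffContOnCl ?_
    · refine h.trans (le_of_eq ?_)
      field_simp; norm_num
    · intro u hu
      rw [mem_sphere_iff_norm] at hu
      apply hup2
      have : u - s = (u - w) + (w - s) := by ring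
      rw [this]
      refine (norm_add_le _ _).trans ?_
      linarith
  intro z hz
  have hlip : ‖Z1 z - Z1 s‖ ≤ 48 * C / ε * T ^ ε * R * ‖z - s‖ :=
    (convex_closedBall s ρ).norm_image_sub_le_of_norm_deriv_le
      (fun w _ => Z1_diff w) hder (Metric.mem_closedBall_self hρ0.le) hz
  rw [mem_closedBall_iff_norm] at hz
  have hρm : 48 * C / ε * T ^ ε * R * ρ = c₀ * T ^ (-(4 * ε)) * R / 8 := by
    have e : T ^ (-(4 * ε)) = T ^ ε * T ^ (-(5 * ε)) := by
      rw [← Real.rpow_add hT0]; congr 1; ring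
    rw [hρ, e]
    field_simp
    norm_num
  have h1 : ‖Z1 z - Z1 s‖ ≤ c₀ * T ^ (-(4 * ε)) * R / 2 := by
    refine hlip.trans ?_
    have h2 : 48 * C / ε * T ^ ε * R * ‖z - s‖ ≤ 48 * C / ε * T ^ ε * R * ρ :=
      mul_le_mul_of_nonneg_left hz (by positivity)
    rw [hρm] at h2
    have h3 : 0 ≤ c₀ * T ^ (-(4 * ε)) * R := by positivity
    linarith
  have h2 : c₀ * T ^ (-(4 * ε)) * R / 2 ≤ ‖Z1 z‖ := by
    have h3 : ‖Z1 s‖ ≤ ‖Z1 z‖ + ‖Z1 z - Z1 s‖ := by
      calc ‖Z1 s‖ = ‖Z1 z - (Z1 z - Z1 s)‖ := by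
            congr 1; ring
        _ ≤ _ := norm_sub_le _ _
    linarith
  have hpos : 0 < c₀ * T ^ (-(4 * ε)) * R / 2 := by positivity
  constructor
  · intro h0
    rw [h0, norm_zero] at h2
    linarith
  · rw [norm_div]
    have h3 : ‖z - 1‖ ≤ 3 * R := by
      have e : z - 1 = (z - s) + (s - 1) := by ring
      have h9 : ‖z - 1‖ ≤ ‖z - s‖ + ‖s - 1‖ := by rw [e]; exact norm_add_le _ _
      have h10 : ‖s - 1‖ ≤ ‖s‖ + 1 := by
        refine (norm_sub_le _ _).trans ?_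
        rw [norm_one]
      rw [hR]
      rw [hR] at hR1
      linarith
    calc ‖z - 1‖ / ‖Z1 z‖ ≤ (3 * R) / (c₀ * T ^ (-(4 * ε)) * R / 2) :=
          div_le_div₀ (by positivity) h3 hpos h2
      _ = 6 / c₀ * T ^ (4 * ε) := by
          rw [Real.rpow_neg hT0.le]
          field_simp
          norm_num
      _ ≤ 384 * C / (c₀ * ε) * T ^ (4 * ε) := by
          apply mul_le_mul_of_nonneg_right _ (by positivity)
          rw [div_le_div_iff₀ hc₀ (by positivity)]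
          have : 6 * (c₀ * ε) ≤ 6 * (c₀ * 1) := by gcongr
          nlinarith

/-- Euler factors at the primes dividing `q` -/
noncomputable def EP (q : ℕ) (z : ℂ) : ℂ := ∏ p ∈ q.primeFactors, (1 - (p : ℂ) ^ (-z))

lemma EP_diff (q : ℕ) : Differentiable ℂ (EP q) := by
  unfold EP
  intro z
  apply DifferentiableAt.fun_finsetProd
  intro p hp
  have hpp := Nat.prime_of_mem_primeFactors hp
  have : (p : ℂ) ≠ 0 := by exact_mod_cast hpp.ne_zero
  apply DifferentiableAt.sub (differentiableAt_const _)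
  apply DifferentiableAt.const_cpow differentiableAt_id.neg
  left; exact this

lemma factor_low {p : ℕ} (hp : p.Prime) {z : ℂ} (hz : 1 / 2 ≤ z.re) :
    1 / (p : ℝ) ^ 2 ≤ ‖1 - (p : ℂ) ^ (-z)‖ := by
  have hp2 : (2 : ℝ) ≤ p := by exact_mod_cast hp.two_le
  have hp0 : (0 : ℝ) < p := by linarith
  have h1 : ‖(p : ℂ) ^ (-z)‖ ≤ 3 / 4 := by
    have e : ‖(p : ℂ) ^ (-z)‖ = (p : ℝ) ^ (-z.re) := by
      have := Complex.norm_cpow_eq_rpow_re_of_pos hp0 (-z)
      simpa using this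
    rw [e]
    calc (p : ℝ) ^ (-z.re) ≤ (p : ℝ) ^ (-(1 / 2 : ℝ)) :=
          Real.rpow_le_rpow_of_exponent_le (by linarith) (by linarith)
      _ ≤ (2 : ℝ) ^ (-(1 / 2 : ℝ)) :=
          Real.rpow_le_rpow_of_nonpos (by norm_num) hp2 (by norm_num)
      _ ≤ 3 / 4 := by
          rw [Real.rpow_neg (by norm_num), ← Real.sqrt_eq_rpow]
          have h2 : (4 / 3 : ℝ) ≤ √2 := Real.le_sqrt_of_sq_le (by norm_num)
          calc (√2)⁻¹ ≤ (4 / 3 : ℝ)⁻¹ := inv_anti₀ (by norm_num) h2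
            _ = 3 / 4 := by norm_num
  have h2 : ‖(1 : ℂ)‖ ≤ ‖1 - (p : ℂ) ^ (-z)‖ + ‖(p : ℂ) ^ (-z)‖ := by
    have := norm_add_le (1 - (p : ℂ) ^ (-z)) ((p : ℂ) ^ (-z))
    simpa using this
  rw [norm_one] at h2
  have h3 : 1 / (p : ℝ) ^ 2 ≤ 1 / 4 := by
    apply one_div_le_one_div_of_le (by norm_num)
    nlinarith
  linarith

lemma EP_low {q : ℕ} (hq : 1 ≤ q) {z : ℂ} (hz : 1 / 2 ≤ z.re) :
    EP q z ≠ 0 ∧ ‖(EP q z)⁻¹‖ ≤ (q : ℝ) ^ 2 := by
  have h1 : ∏ p ∈ q.primeFactors, (1 / (p : ℝ) ^ 2) ≤ ‖EP q z‖ := by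
    unfold EP
    rw [norm_prod]
    apply Finset.prod_le_prod
    · intro p _; positivity
    · intro p hp
      exact factor_low (Nat.prime_of_mem_primeFactors hp) hz
  have h2 : ∏ p ∈ q.primeFactors, (1 / (p : ℝ) ^ 2) = 1 / (∏ p ∈ q.primeFactors, (p : ℝ)) ^ 2 := by
    rw [← Finset.prod_pow, one_div, ← Finset.prod_inv_distrib]
    apply Finset.prod_congr rfl
    intro p _
    rw [one_div]
  have h3 : (∏ p ∈ q.primeFactors, (p : ℝ)) ≤ q := by
    have := Nat.le_of_dvd (by omega) (Nat.prod_primeFactors_dvd q)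
    have h5 : ((∏ p ∈ q.primeFactors, p : ℕ) : ℝ) ≤ q := by exact_mod_cast this
    rwa [Nat.cast_prod] at h5
  have h4 : (0 : ℝ) < ∏ p ∈ q.primeFactors, (p : ℝ) := by
    apply Finset.prod_pos
    intro p hp
    exact_mod_cast (Nat.prime_of_mem_primeFactors hp).pos
  have hq0 : (0 : ℝ) < q := by exact_mod_cast hq
  have h5 : 1 / (q : ℝ) ^ 2 ≤ ‖EP q z‖ := by
    refine le_trans ?_ h1
    rw [h2]
    apply one_div_le_one_div_of_le (by positivity)
    exact pow_le_pow_left₀ h4.le h3 2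
  have h6 : 0 < ‖EP q z‖ := lt_of_lt_of_le (by positivity) h5
  refine ⟨norm_pos_iff.mp h6, ?_⟩
  rw [norm_inv]
  calc ‖EP q z‖⁻¹ ≤ (1 / (q : ℝ) ^ 2)⁻¹ := inv_anti₀ (by positivity) h5
    _ = (q : ℝ) ^ 2 := by rw [one_div, inv_inv]

/-- `(1 / L(z, χ₀))` -/
noncomputable def gP (q : ℕ) (z : ℂ) : ℂ := ((z - 1) / Z1 z) * (EP q z)⁻¹

lemma gP_eq (q : ℕ) [NeZero q] {z : ℂ} (hz : 1 < z.re) :
    gP q z = ((1 : DirichletCharacter ℂ q).LFunction z)⁻¹ := by
  have hz1 : z ≠ 1 := by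
    rintro rfl
    simp at hz
  have h := DirichletCharacter.LFunctionTrivChar_eq_mul_riemannZeta (N := q) hz1
  rw [DirichletCharacter.LFunctionTrivChar] at h
  rw [h]
  unfold gP
  have h0 : z - 1 ≠ 0 := sub_ne_zero.mpr hz1
  have hζ := riemannZeta_ne_zero_of_one_lt_re hz
  rw [Z1_eq hz1]
  have : EP q z = ∏ p ∈ q.primeFactors, (1 - (p : ℂ) ^ (-z)) := rfl
  rw [← this]
  have hE := (EP_low (q := q) NeZero.one_le (z := z) (by linarith)).1
  field_simp

lemma gP_diffAt {q : ℕ} (hq : 1 ≤ q) {z : ℂ} (hz : 1 / 2 ≤ z.re) (hZ : Z1 z ≠ 0) :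
    DifferentiableAt ℂ (gP q) z := by
  unfold gP
  apply DifferentiableAt.mul
  · exact (differentiableAt_id.sub_const 1).div (Z1_diff z) hZ
  · exact (EP_diff q z).inv (EP_low hq hz).1

/-- `f` for the principal character -/
noncomputable def fP (q : ℕ) (z : ℂ) : ℂ := gP q z / z ^ 2

lemma fP_analytic {q : ℕ} (hq : 1 ≤ q) : AnalyticOnNhd ℂ (fP q) {z | 1 < z.re} := by
  apply DifferentiableOn.analyticOnNhd _ (isOpen_lt continuous_const continuous_re)
  intro z hz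
  have hz1 : 1 < z.re := hz
  apply DifferentiableAt.differentiableWithinAt
  unfold fP
  apply DifferentiableAt.div
  · exact gP_diffAt hq (by linarith) (Z1_ne_zero hz1.le)
  · exact differentiableAt_id.pow 2
  · apply pow_ne_zero
    intro h0
    rw [h0] at hz1
    simp at hz1
    linarith

lemma fP_bound (k : ℕ) : ∃ K : ℝ, 0 < K ∧ ∀ q : ℕ, 1 ≤ q → ∀ c ξ : ℝ, 1 < c → c ≤ 3 / 2 →
    ∀ j ≤ k, ‖iteratedDeriv j (fP q) (vert c ξ)‖ ≤
      K * (q : ℝ) ^ 2 * (1 + |ξ|) ^ (-(3 / 2 : ℝ)) := by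
  have hk1 : (1 : ℝ) ≤ (k : ℝ) + 1 := by linarith [Nat.cast_nonneg (α := ℝ) k]
  set ε : ℝ := 1 / (10 * (k + 1)) with hε
  have hε0 : 0 < ε := by positivity
  have hε1 : ε ≤ 1 := by
    rw [hε, div_le_one (by positivity)]; linarith
  obtain ⟨K, hK, hball⟩ := Z1_ball hε0 hε1
  have hK0 : 0 < K := by linarith
  refine ⟨k.factorial * 4 * K ^ (k + 1) * 8, by positivity, ?_⟩
  intro q hq c ξ hc1 hc2 j hj
  obtain ⟨⟨hρ0, hρ2⟩, hb⟩ := hball c ξ hc1 hc2
  set T : ℝ := |2 * π * ξ| + 2 with hT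
  have hT2 : 2 ≤ T := by rw [hT]; linarith [abs_nonneg (2 * π * ξ)]
  have hT0 : 0 < T := by linarith
  set ρ : ℝ := K⁻¹ * T ^ (-(5 * ε)) with hρ
  have hqr : (1 : ℝ) ≤ q := by exact_mod_cast hq
  have h1v : 1 ≤ ‖vert c ξ‖ := by
    have := abs_re_le_norm (vert c ξ)
    rw [vert_re, abs_of_pos (by linarith)] at this
    linarith
  have hre : ∀ z ∈ Metric.closedBall (vert c ξ) ρ, 1 / 2 ≤ z.re := by
    intro z hz
    rw [mem_closedBall_iff_norm] at hz
    have h2 : |(z - vert c ξ).re| ≤ ρ := (abs_re_le_norm _).trans hz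
    rw [sub_re, vert_re] at h2
    have := (abs_le.mp h2).1
    linarith
  have h := cauchy_sq (g := gP q) (s := vert c ξ) (ρ := ρ) (P := K * T ^ (4 * ε) * (q : ℝ) ^ 2)
    hρ0 hρ2 h1v (fun z hz => gP_diffAt hq (hre z hz) (hb z hz).1) (fun z hz => by
      unfold gP
      rw [norm_mul]
      exact mul_le_mul (hb z hz).2 (EP_low hq (hre z hz)).2 (norm_nonneg _) (by positivity)) j
  have hff : fP q = fun z => gP q z / z ^ 2 := rfl
  rw [hff]
  refine h.trans ?_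
  have e1 : ρ⁻¹ = K * T ^ (5 * ε) := by
    rw [hρ, mul_inv, inv_inv, Real.rpow_neg hT0.le, inv_inv]
  have h5 : 1 ≤ T ^ (5 * ε) := Real.one_le_rpow (by linarith) (by positivity)
  have h4 : T ^ (4 * ε) ≤ T ^ (5 * ε) :=
    Real.rpow_le_rpow_of_exponent_le (by linarith) (by linarith)
  have e2 : (j.factorial : ℝ) * (4 * (K * T ^ (4 * ε) * (q : ℝ) ^ 2)) / ρ ^ j =
      j.factorial * 4 * (q : ℝ) ^ 2 * ((K * T ^ (4 * ε)) * (K * T ^ (5 * ε)) ^ j) := by
    rw [div_eq_mul_inv, ← inv_pow, e1]; ring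
  have h3 : (j.factorial : ℝ) ≤ k.factorial := by
    exact_mod_cast Nat.factorial_le hj
  have hX1 : 1 ≤ K * T ^ (5 * ε) := by nlinarith
  have h6 : (K * T ^ (4 * ε)) * (K * T ^ (5 * ε)) ^ j ≤ K ^ (k + 1) * T ^ (1 / 2 : ℝ) := by
    calc (K * T ^ (4 * ε)) * (K * T ^ (5 * ε)) ^ j ≤
          (K * T ^ (5 * ε)) * (K * T ^ (5 * ε)) ^ k := by
          apply mul_le_mul
          · exact mul_le_mul_of_nonneg_left h4 hK0.le
          · exact pow_le_pow_right₀ hX1 hj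
          · positivity
          · positivity
      _ = (K * T ^ (5 * ε)) ^ (k + 1) := by ring
      _ = K ^ (k + 1) * T ^ (1 / 2 : ℝ) := by
          rw [mul_pow, ← Real.rpow_natCast (T ^ (5 * ε)), ← Real.rpow_mul hT0.le]
          congr 2
          rw [hε]
          push_cast
          field_simp
          norm_num
  have hw := weight_le (θ := 1 / 2) (by norm_num) le_rfl hc1.le ξ (le_refl (1 : ℝ))
  rw [one_mul, Real.one_rpow, one_mul] at hw
  have hTw : T ^ (1 / 2 : ℝ) ≤ (2 * |2 * π * ξ| + 6) ^ (1 / 2 : ℝ) := by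
    apply Real.rpow_le_rpow hT0.le _ (by norm_num)
    rw [hT]; linarith [abs_nonneg (2 * π * ξ)]
  rw [e2]
  calc (j.factorial : ℝ) * 4 * (q : ℝ) ^ 2 * ((K * T ^ (4 * ε)) * (K * T ^ (5 * ε)) ^ j) *
        (‖vert c ξ‖ ^ 2)⁻¹
      ≤ (k.factorial : ℝ) * 4 * (q : ℝ) ^ 2 * (K ^ (k + 1) * T ^ (1 / 2 : ℝ)) *
        (‖vert c ξ‖ ^ 2)⁻¹ := by
        apply mul_le_mul_of_nonneg_right _ (by positivity)
        apply mul_le_mul _ h6 (by positivity) (by positivity)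
        apply mul_le_mul_of_nonneg_right _ (by positivity)
        exact mul_le_mul_of_nonneg_right h3 (by norm_num)
    _ = (k.factorial : ℝ) * 4 * K ^ (k + 1) * (q : ℝ) ^ 2 *
        (T ^ (1 / 2 : ℝ) * (‖vert c ξ‖ ^ 2)⁻¹) := by ring
    _ ≤ (k.factorial : ℝ) * 4 * K ^ (k + 1) * (q : ℝ) ^ 2 *
        (8 * (1 + |ξ|) ^ (-(3 / 2 : ℝ))) := by
        apply mul_le_mul_of_nonneg_left _ (by positivity)
        refine le_trans ?_ hw
        exact mul_le_mul_of_nonneg_right hTw (by positivity)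
    _ = _ := by ring

/-- The log-weighted bound for principal characters. -/
theorem muLog_principal (k : ℕ) : ∃ C : ℝ, 0 < C ∧ ∀ (q : ℕ) [NeZero q],
    ∀ x : ℝ, Real.exp 2 ≤ x →
      ‖muLog x q (1 : DirichletCharacter ℂ q)‖ ≤ C * x * (q : ℝ) ^ 2 / (Real.log x) ^ k := by
  obtain ⟨K, hK0, hbd⟩ := fP_bound k
  set J : ℝ := ∫ ξ : ℝ, (1 + |ξ|) ^ (-(3 / 2 : ℝ)) with hJ
  have hJ0 : 0 ≤ J := integral_nonneg (fun ξ => by positivity)
  refine ⟨Real.exp 1 * (K * (J + 1)), by positivity, ?_⟩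
  intro q _ x hx
  have hq1 : 1 ≤ q := NeZero.one_le
  have hx0 : 0 < x := lt_of_lt_of_le (Real.exp_pos 2) hx
  have hlog : 2 ≤ Real.log x := by
    rw [Real.le_log_iff_exp_le hx0]; exact hx
  have hlog0 : 0 < Real.log x := by linarith
  have hx1 : 1 ≤ x := by
    have := Real.add_one_le_exp 2
    linarith
  set c : ℝ := 1 + 1 / Real.log x with hc
  have hc1 : 1 < c := by
    have : 0 < 1 / Real.log x := by positivity
    linarith
  have hc2 : c ≤ 3 / 2 := by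
    have : 1 / Real.log x ≤ 1 / 2 := one_div_le_one_div_of_le (by norm_num) hlog
    linarith
  set χ : DirichletCharacter ℂ q := 1 with hχ
  have hsum : LSeriesSummable (cm χ) (c : ℂ) := cm_summable χ (by simpa using hc1)
  unfold muLog
  rw [perron_sum (cm χ) hc1.le hsum hx1, norm_mul, Complex.norm_real,
    Real.norm_of_nonneg (Real.exp_pos _).le]
  have hLf : ∀ ξ : ℝ, LSeries (cm χ) (vert c ξ) / (vert c ξ) ^ 2 = fP q (vert c ξ) := by
    intro ξ
    have h1 : 1 < (vert c ξ).re := by rw [vert_re]; exact hc1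
    unfold fP
    rw [cm_LSeries χ h1, gP_eq q h1]
  simp only [hLf]
  have hpt : ∀ j ≤ k, ∀ ξ : ℝ, ‖iteratedDeriv j (fP q) (vert c ξ)‖ ≤
      K * (q : ℝ) ^ 2 * (1 + |ξ|) ^ (-(3 / 2 : ℝ)) := fun j hj ξ => hbd q hq1 c ξ hc1 hc2 j hj
  have hmem : ∀ ξ, vert c ξ ∈ {z : ℂ | 1 < z.re} := by
    intro ξ
    show 1 < (vert c ξ).re
    rw [vert_re]; exact hc1
  have hint : ∀ j ≤ k, Integrable (fun ξ => iteratedDeriv j (fP q) (vert c ξ)) := by
    intro j hj
    refine Integrable.mono' (integrable_J.const_mul (K * (q : ℝ) ^ 2)) ?_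
      (Eventually.of_forall (hpt j hj))
    apply Continuous.aestronglyMeasurable
    rw [iteratedDeriv_eq_iterate, continuous_iff_continuousAt]
    intro ξ
    exact ContinuousAt.comp ((fP_analytic hq1 _ (hmem ξ)).iterated_deriv j).continuousAt
      (continuous_vert c).continuousAt
  rw [int_by_parts (fP_analytic hq1) hc1 hlog0 k hint]
  have hI : ‖∫ ξ : ℝ, iteratedDeriv k (fP q) (vert c ξ) *
        cexp (((2 * π * ξ * Real.log x : ℝ) : ℂ) * I)‖ ≤ K * (q : ℝ) ^ 2 * J := by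
    rw [hJ, ← integral_const_mul]
    apply norm_integral_le_of_norm_le (integrable_J.const_mul _)
    refine Eventually.of_forall (fun ξ => ?_)
    rw [norm_mul, Complex.norm_exp_ofReal_mul_I, mul_one]
    exact hpt k le_rfl ξ
  have hexp : Real.exp (c * Real.log x) = Real.exp 1 * x := by
    have h1 : c * Real.log x = 1 + Real.log x := by
      rw [hc]; field_simp; ring
    rw [h1, Real.exp_add, Real.exp_log hx0]
  rw [hexp]
  calc Real.exp 1 * x * (1 / Real.log x ^ k * ‖∫ ξ : ℝ, iteratedDeriv k (fP q) (vert c ξ) *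
        cexp (((2 * π * ξ * Real.log x : ℝ) : ℂ) * I)‖)
      ≤ Real.exp 1 * x * (1 / Real.log x ^ k * (K * (q : ℝ) ^ 2 * (J + 1))) := by
        apply mul_le_mul_of_nonneg_left _ (by positivity)
        apply mul_le_mul_of_nonneg_left _ (by positivity)
        refine hI.trans ?_
        apply mul_le_mul_of_nonneg_left _ (by positivity)
        linarith
    _ = _ := by ring

end Pool.Agent.H705R2.MSW
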